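import Pool.Agent.H756.SB.Stm2
import Pool.Agent.U959.OC.Apx2

/-!
# Approximation of log-concave densities restricted to signed order cones (project SB, APX)
-/

set_option autoImplicit false

namespace Pool.Agent.U574.SB

open MeasureTheory Set Filter Topology
open scoped ENNReal InnerProductSpace
open Pool.Agent.W695.KH (Eu EU Sm Pot)
open Pool.Agent.Y506.RG (LC1 GD)
open Pool.Agent.U959.OC
open Pool.Agent.H756.SB

variable {n : ℕ}

/-- the vector of a signed label -/
noncomputable def ev (u : Fin n × Bool) : Eu (Fin n) :=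
  EuclideanSpace.single u.1 (if u.2 then -1 else 1)

theorem ev_inner (u : Fin n × Bool) (x : Eu (Fin n)) : ⟪ev u, x⟫_ℝ = sg (fun m => x m) u := by
  unfold ev sg
  rw [EuclideanSpace.inner_single_left]
  split_ifs <;> simp

theorem sg_cont (u : Fin n × Bool) : Continuous fun x : Eu (Fin n) => sg (fun i => x i) u := by
  unfold sg
  split_ifs <;> fun_prop

theorem pc (k : ℝ) (u v : Fin n × Bool) : Continuous fun x : Eu (Fin n) =>
    k / 2 * max 0 (sg (fun m => x m) u - sg (fun m => x m) v) ^ 2 :=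
  continuous_const.mul ((continuous_const.max ((sg_cont u).sub (sg_cont v))).pow 2)

open Classical in
/-- smooth approximations -/
noncomputable def Us (H : ℝ → ℝ) (k : ℝ) (S : Fin n × Bool → Fin n × Bool → Prop) (x : Eu (Fin n)) : ℝ :=
  ∑ i, -Real.log (H (x i)) + ∑ p : (Fin n × Bool) × (Fin n × Bool), if S p.1 p.2 then k / 2 * max 0 (sg (fun m => x m) p.1 - sg (fun m => x m) p.2) ^ 2 else 0

theorem Us_pot {H : ℝ → ℝ} (hH : GD H) {K r : ℝ} (hK : 0 < K) (hr : 0 < r)
    (hb : ∀ s, H s ≤ K * Real.exp (-(max 0 (|s| - r)) ^ 2 / 2)) {k : ℝ} (hk : 0 ≤ k)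
    (S : Fin n × Bool → Fin n × Bool → Prop) :
    (∀ c : ℝ, ∃ (b : Eu (Fin n) → Eu (Fin n)) (A : ℝ), Pot (fun x => Us H k S x + c) b A) ∧
    ∀ x, Real.exp (-Us H k S x) ≤ (K * Real.exp (r ^ 2 / 2)) ^ n * Real.exp (-(1 / 4 * ‖x‖ ^ 2)) := by
  classical
  have hbound : ∀ x, Real.exp (-Us H k S x) ≤
      (K * Real.exp (r ^ 2 / 2)) ^ n * Real.exp (-(1 / 4 * ‖x‖ ^ 2)) := by
    intro x
    have h1 : Real.exp (-Us H k S x) ≤ ∏ i, H (x i) := by
      have e1 : ∏ i, H (x i) = Real.exp (-∑ i, -Real.log (H (x i))) := by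
        rw [Finset.sum_neg_distrib, neg_neg, Real.exp_sum]
        exact Finset.prod_congr rfl fun i _ => (Real.exp_log (hH.pos _)).symm
      rw [e1]
      refine Real.exp_le_exp.2 ?_
      have h2 : 0 ≤ ∑ p : (Fin n × Bool) × (Fin n × Bool),
          if S p.1 p.2 then k / 2 * max 0 (sg (fun m => x m) p.1 - sg (fun m => x m) p.2) ^ 2 else 0 :=
        Finset.sum_nonneg fun p _ => by
          split_ifs
          · positivity
          · exact le_rfl
      unfold Us
      linarith
    refine h1.trans ?_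
    have h3 : ∀ s : ℝ, H s ≤ K * Real.exp (r ^ 2 / 2) * Real.exp (-(1 / 4 * s ^ 2)) := by
      intro s
      refine (hb s).trans ?_
      rw [mul_assoc, ← Real.exp_add]
      refine mul_le_mul_of_nonneg_left (Real.exp_le_exp.2 ?_) hK.le
      have h4 : s ^ 2 / 2 - r ^ 2 ≤ (max 0 (|s| - r)) ^ 2 := by
        rcases le_total (|s|) r with h5 | h5
        · have h6 : 0 ≤ (max 0 (|s| - r)) ^ 2 := sq_nonneg _
          have h7 : s ^ 2 ≤ r ^ 2 := by
            rw [← sq_abs]
            exact pow_le_pow_left₀ (abs_nonneg _) h5 2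
          nlinarith
        · rw [max_eq_right (by linarith)]
          have h7 := sq_abs s
          nlinarith [sq_nonneg (|s| - 2 * r)]
      nlinarith
    calc ∏ i, H (x i) ≤ ∏ i : Fin n, K * Real.exp (r ^ 2 / 2) * Real.exp (-(1 / 4 * x i ^ 2)) :=
          Finset.prod_le_prod (fun i _ => (hH.pos _).le) fun i _ => h3 _
      _ = _ := by
          rw [Finset.prod_mul_distrib, Finset.prod_const, Finset.card_univ, Fintype.card_fin,
            ← Real.exp_sum, Finset.sum_neg_distrib, ← Finset.mul_sum, EuclideanSpace.real_norm_sq_eq]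
  refine ⟨fun c => ?_, hbound⟩
  obtain ⟨V', A0, hA0, hVd, hVm, hVl⟩ := hH.pot
  -- the family of ridge functions
  obtain ⟨v, hv⟩ : ∃ v : Fin n ⊕ ((Fin n × Bool) × (Fin n × Bool)) → Eu (Fin n), v = fun m => match m with
      | Sum.inl i => EuclideanSpace.single i 1
      | Sum.inr p => ev p.1 - ev p.2 := ⟨_, rfl⟩
  obtain ⟨W, hW⟩ : ∃ W : Fin n ⊕ ((Fin n × Bool) × (Fin n × Bool)) → ℝ → ℝ, W = fun m => match m with
      | Sum.inl _ => fun s => -Real.log (H s)
      | Sum.inr p => fun s => if S p.1 p.2 then k / 2 * max 0 s ^ 2 else 0 := ⟨_, rfl⟩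
  obtain ⟨W', hW'⟩ : ∃ W' : Fin n ⊕ ((Fin n × Bool) × (Fin n × Bool)) → ℝ → ℝ, W' = fun m => match m with
      | Sum.inl _ => V'
      | Sum.inr p => fun s => if S p.1 p.2 then k * max 0 s else 0 := ⟨_, rfl⟩
  have hUeq : (fun x => Us H k S x + c) = fun x => ∑ m, W m ⟪v m, x⟫_ℝ + c := by
    funext x
    rw [Fintype.sum_sum_type, hv, hW]
    simp only [Us, inner_sub_left, EuclideanSpace.inner_single_left, map_one, one_mul, ev_inner]
  rw [hUeq]
  refine ridge_pot v W W' (max A0 k) c (lt_of_lt_of_le hA0 (le_max_left _ _)) ?_ ?_ ?_ ?_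
  · rintro (i | p) s
    · rw [hW, hW']
      exact hVd s
    · rw [hW, hW']
      dsimp only
      split_ifs
      · exact pp_der k s
      · exact hasDerivAt_const s 0
  · rintro (i | p)
    · rw [hW']
      exact hVm
    · rw [hW']
      dsimp only
      split_ifs
      · intro s t hst
        exact mul_le_mul_of_nonneg_left (max_le_max le_rfl hst) hk
      · exact monotone_const
  · rintro (i | p) s t
    · rw [hW']
      exact (hVl s t).trans (mul_le_mul_of_nonneg_right (le_max_left _ _) (abs_nonneg _))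
    · rw [hW']
      dsimp only
      split_ifs
      · rw [← mul_sub, abs_mul, abs_of_nonneg hk]
        refine mul_le_mul (le_max_right _ _) ?_ (abs_nonneg _) (hA0.le.trans (le_max_left _ _))
        rw [max_comm 0 s, max_comm 0 t]
        exact abs_max_sub_max_le_abs s t 0
      · rw [sub_zero, abs_zero]
        exact mul_nonneg (hA0.le.trans (le_max_left _ _)) (abs_nonneg _)
  · -- integrability
    have e0 : (fun x : Eu (Fin n) => (1 + ‖x‖ ^ 2) * Real.exp (-(∑ m, W m ⟪v m, x⟫_ℝ + c))) =
        fun x => (1 + ‖x‖ ^ 2) * Real.exp (-(Us H k S x + c)) := by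
      funext x
      rw [← congrFun hUeq x]
    rw [e0]
    have hg := (Pool.Agent.W762.KH.gauss_int (κ := Fin n) (1 / 8) (by norm_num)).const_mul
      (9 * (K * Real.exp (r ^ 2 / 2)) ^ n * Real.exp (-c))
    have hUc : Continuous fun x : Eu (Fin n) => Us H k S x := by
      unfold Us
      refine (continuous_finsetSum _ fun i _ => ?_).add (continuous_finsetSum _ fun p _ => ?_)
      · have h1 : Continuous fun s => -Real.log (H s) :=
          continuous_iff_continuousAt.2 fun s => (hVd s).continuousAt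
        exact h1.comp (by fun_prop)
      · split_ifs
        · exact pc k _ _
        · exact continuous_const
    refine hg.mono' ?_ (Eventually.of_forall fun x => ?_)
    · exact ((continuous_const.add (continuous_norm.pow 2)).mul
        (Real.continuous_exp.comp (hUc.add continuous_const).neg)).aestronglyMeasurable
    · rw [Real.norm_eq_abs, abs_of_nonneg (mul_nonneg (by positivity) (Real.exp_pos _).le),
        neg_add, Real.exp_add]
      have h5 : (1 + ‖x‖ ^ 2) * Real.exp (-(1 / 4 * ‖x‖ ^ 2)) ≤ 9 * Real.exp (-(1 / 8 * ‖x‖ ^ 2)) := by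
        have h6 : Real.exp (-(1 / 4 * ‖x‖ ^ 2)) = Real.exp (-(1 / 8 * ‖x‖ ^ 2)) *
            Real.exp (-(1 / 8 * ‖x‖ ^ 2)) := by
          rw [← Real.exp_add]
          congr 1
          ring
        have h7 : (1 + ‖x‖ ^ 2) * Real.exp (-(1 / 8 * ‖x‖ ^ 2)) ≤ 9 := by
          rw [Real.exp_neg, ← div_eq_mul_inv, div_le_iff₀ (Real.exp_pos _)]
          have h8 := Real.add_one_le_exp (1 / 8 * ‖x‖ ^ 2)
          nlinarith [sq_nonneg ‖x‖]
        rw [h6, ← mul_assoc]
        exact mul_le_mul_of_nonneg_right h7 (Real.exp_pos _).le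
      have h9 := hbound x
      have h10 : 0 ≤ (K * Real.exp (r ^ 2 / 2)) ^ n := by positivity
      calc (1 + ‖x‖ ^ 2) * (Real.exp (-Us H k S x) * Real.exp (-c))
          ≤ (1 + ‖x‖ ^ 2) * (((K * Real.exp (r ^ 2 / 2)) ^ n * Real.exp (-(1 / 4 * ‖x‖ ^ 2))) *
            Real.exp (-c)) := by
            refine mul_le_mul_of_nonneg_left ?_ (by positivity)
            exact mul_le_mul_of_nonneg_right h9 (Real.exp_pos _).le
        _ = (K * Real.exp (r ^ 2 / 2)) ^ n * Real.exp (-c) *
            ((1 + ‖x‖ ^ 2) * Real.exp (-(1 / 4 * ‖x‖ ^ 2))) := by ring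
        _ ≤ (K * Real.exp (r ^ 2 / 2)) ^ n * Real.exp (-c) * (9 * Real.exp (-(1 / 8 * ‖x‖ ^ 2))) :=
            mul_le_mul_of_nonneg_left h5 (mul_nonneg h10 (Real.exp_pos _).le)
        _ = _ := by ring

theorem conE_meas (S : Fin n × Bool → Fin n × Bool → Prop) : MeasurableSet (conE S) := by
  have : conE S = ⋂ u, ⋂ v, ⋂ (_ : S u v),
      {x : Eu (Fin n) | sg (fun i => x i) u ≤ sg (fun i => x i) v} := by
    ext x; simp only [conE, mem_ofPred_eq, mem_iInter]
  rw [this]
  exact MeasurableSet.iInter fun u => MeasurableSet.iInter fun v => MeasurableSet.iInter fun _ =>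
    measurableSet_le (sg_cont u).measurable (sg_cont v).measurable

theorem wS_meas {h : ℝ → ℝ} (hh : Measurable h) (S : Fin n × Bool → Fin n × Bool → Prop) :
    Measurable (wS h S) := by
  unfold wS
  refine Measurable.ite (conE_meas S) ?_ measurable_const
  exact Finset.measurable_prod _ fun i _ => hh.comp (by fun_prop)

theorem wS_nonneg {h : ℝ → ℝ} (hh : ∀ s, 0 ≤ h s) (S : Fin n × Bool → Fin n × Bool → Prop)
    (x : Eu (Fin n)) : 0 ≤ wS h S x := by
  unfold wS
  split_ifs
  · exact Finset.prod_nonneg fun i _ => hh _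
  · exact le_rfl

/-- approximation of a truncated density -/
theorem apx_trunc {h : ℝ → ℝ} (hh : LC1 h) {r : ℝ} (hr : 0 < r) (hs : ∀ s, r < |s| → h s = 0)
    (hpos : 0 < ∫ s, h s) (S : Fin n × Bool → Fin n × Bool → Prop) (ε : ℝ) (hε : 0 < ε) :
    Integrable (wS h S) ∧
    ∃ U : Eu (Fin n) → ℝ, (∀ c : ℝ, ∃ (b : Eu (Fin n) → Eu (Fin n)) (A : ℝ),
      Pot (fun x => U x + c) b A) ∧ Integrable (fun x => Real.exp (-U x)) ∧
      ∫ x, |Real.exp (-U x) - wS h S x| ≤ ε := by
  classical
  obtain ⟨H, K, hK, hGD, hb, E, hE, hlim⟩ := Pool.Agent.Y333.RG.reg h r hh hr hs hpos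
  have hg : Integrable fun x : Eu (Fin n) =>
      (K * Real.exp (r ^ 2 / 2)) ^ n * Real.exp (-(1 / 4 * ‖x‖ ^ 2)) :=
    (Pool.Agent.W762.KH.gauss_int (κ := Fin n) (1 / 4) (by norm_num)).const_mul _
  have hU := fun k : ℕ => Us_pot (n := n) (hGD k) hK hr (hb k) (k := (k : ℝ)) (Nat.cast_nonneg k) S
  have hcont : ∀ k : ℕ, Continuous fun x : Eu (Fin n) => Us (H k) k S x := by
    intro k
    obtain ⟨V', A0, hA0, hVd, hVm, hVl⟩ := (hGD k).pot
    unfold Us
    refine (continuous_finsetSum _ fun i _ => ?_).add (continuous_finsetSum _ fun p _ => ?_)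
    · have h1 : Continuous fun s => -Real.log (H k s) :=
        continuous_iff_continuousAt.2 fun s => (hVd s).continuousAt
      exact h1.comp (by fun_prop)
    · split_ifs
      · exact pc _ _ _
      · exact continuous_const
  -- pointwise limit
  have hpt : ∀ᵐ x : Eu (Fin n), Tendsto (fun k : ℕ => Real.exp (-Us (H k) k S x)) atTop
      (𝓝 (wS h S x)) := by
    filter_upwards [ae_good (n := n) E hE] with x hx
    have e : ∀ k : ℕ, Real.exp (-Us (H k) k S x) = (∏ i, H k (x i)) *
        ∏ p : (Fin n × Bool) × (Fin n × Bool), Real.exp (-(if S p.1 p.2 then (k : ℝ) / 2 * max 0 (sg (fun m => x m) p.1 - sg (fun m => x m) p.2) ^ 2 else 0)) := by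
      intro k
      rw [← Real.exp_sum, Finset.sum_neg_distrib]
      have e1 : ∏ i, H k (x i) = Real.exp (-∑ i, -Real.log (H k (x i))) := by
        rw [Finset.sum_neg_distrib, neg_neg, Real.exp_sum]
        exact Finset.prod_congr rfl fun i _ => (Real.exp_log ((hGD k).pos _)).symm
      rw [e1, ← Real.exp_add]
      congr 1
      unfold Us
      ring
    have t1 : Tendsto (fun k : ℕ => ∏ i, H k (x i)) atTop (𝓝 (∏ i, h (x i))) :=
      tendsto_finsetProd _ fun i _ => hlim (x i) (hx.1 i)
    have t2 : Tendsto (fun k : ℕ => ∏ p : (Fin n × Bool) × (Fin n × Bool),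
        Real.exp (-(if S p.1 p.2 then (k : ℝ) / 2 * max 0 (sg (fun m => x m) p.1 - sg (fun m => x m) p.2) ^ 2 else 0))) atTop
        (𝓝 (∏ p : (Fin n × Bool) × (Fin n × Bool), if S p.1 p.2 ∧ sg (fun m => x m) p.2 < sg (fun m => x m) p.1 then 0 else 1)) := by
      refine tendsto_finsetProd _ fun p _ => ?_
      by_cases hp : S p.1 p.2
      · simp only [if_pos hp]
        by_cases hlt : sg (fun m => x m) p.2 < sg (fun m => x m) p.1
        · rw [if_pos ⟨hp, hlt⟩]
          have hpos' : 0 < max 0 (sg (fun m => x m) p.1 - sg (fun m => x m) p.2) ^ 2 := by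
            rw [max_eq_right (by linarith)]
            have : 0 < sg (fun m => x m) p.1 - sg (fun m => x m) p.2 := by linarith
            positivity
          have h3 : Tendsto (fun k : ℕ => (k : ℝ) / 2 * max 0 (sg (fun m => x m) p.1 - sg (fun m => x m) p.2) ^ 2) atTop atTop := by
            have h4 : Tendsto (fun k : ℕ => (k : ℝ)) atTop atTop := tendsto_natCast_atTop_atTop
            exact (h4.atTop_div_const (by norm_num)).atTop_mul_const hpos'
          exact Real.tendsto_exp_neg_atTop_nhds_zero.comp h3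
        · rw [if_neg (fun hc => hlt hc.2)]
          have h5 : max 0 (sg (fun m => x m) p.1 - sg (fun m => x m) p.2) = 0 := max_eq_left (by linarith [not_lt.1 hlt])
          rw [h5]
          simp
      · simp only [if_neg hp, neg_zero, Real.exp_zero]
        rw [if_neg (fun hc => hp hc.1)]
        exact tendsto_const_nhds
    have t3 := t1.mul t2
    have e2 : (∏ i, h (x i)) * (∏ p : (Fin n × Bool) × (Fin n × Bool), if S p.1 p.2 ∧ sg (fun m => x m) p.2 < sg (fun m => x m) p.1 then (0 : ℝ) else 1) =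
        wS h S x := by
      unfold wS
      by_cases hc : x ∈ conE S
      · rw [if_pos hc]
        have : ∀ p : (Fin n × Bool) × (Fin n × Bool), (if S p.1 p.2 ∧ sg (fun m => x m) p.2 < sg (fun m => x m) p.1 then (0 : ℝ) else 1) = 1 := by
          intro p
          rw [if_neg]
          rintro ⟨h1, h2⟩
          exact absurd (hc p.1 p.2 h1) (not_le.2 h2)
        rw [Finset.prod_congr rfl fun p _ => this p]
        simp
      · rw [if_neg hc]
        have hc' : ∃ i j, S i j ∧ sg (fun m => x m) j < sg (fun m => x m) i := by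
          unfold conE at hc
          simp only [mem_ofPred_eq, not_forall, not_le] at hc
          obtain ⟨i, j, hij, hlt⟩ := hc
          exact ⟨i, j, hij, hlt⟩
        obtain ⟨i, j, hij, hlt⟩ := hc'
        have h0 : (∏ p : (Fin n × Bool) × (Fin n × Bool), if S p.1 p.2 ∧ sg (fun m => x m) p.2 < sg (fun m => x m) p.1 then (0 : ℝ) else 1) = 0 :=
          Finset.prod_eq_zero (Finset.mem_univ (i, j)) (if_pos (⟨hij, hlt⟩ : S i j ∧ sg (fun m => x m) j < sg (fun m => x m) i))
        rw [h0, mul_zero]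
    rw [e2] at t3
    exact t3.congr fun k => (e k).symm
  have hwbd : ∀ᵐ x : Eu (Fin n), |wS h S x| ≤
      (K * Real.exp (r ^ 2 / 2)) ^ n * Real.exp (-(1 / 4 * ‖x‖ ^ 2)) := by
    filter_upwards [hpt] with x hx
    rw [abs_of_nonneg (wS_nonneg hh.nonneg S x)]
    exact le_of_tendsto' hx fun k => (hU k).2 x
  have hwi : Integrable (wS h S) :=
    hg.mono' (wS_meas hh.meas S).aestronglyMeasurable hwbd
  have hexpi : ∀ k : ℕ, Integrable fun x => Real.exp (-Us (H k) k S x) := by
    intro k
    refine hg.mono' (Real.continuous_exp.comp (hcont k).neg).aestronglyMeasurable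
      (Eventually.of_forall fun x => ?_)
    rw [Real.norm_eq_abs, Real.abs_exp]
    exact (hU k).2 x
  have hT : Tendsto (fun k : ℕ => ∫ x, |Real.exp (-Us (H k) k S x) - wS h S x|) atTop
      (𝓝 (∫ _x : Eu (Fin n), (0 : ℝ))) := by
    refine tendsto_integral_of_dominated_convergence (fun x =>
      2 * ((K * Real.exp (r ^ 2 / 2)) ^ n * Real.exp (-(1 / 4 * ‖x‖ ^ 2)))) (fun k => ?_)
      (hg.const_mul 2) (fun k => ?_) ?_
    · exact ((hexpi k).sub hwi).abs.aestronglyMeasurable
    · filter_upwards [hwbd] with x hx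
      rw [Real.norm_eq_abs, abs_abs]
      have h1 := (hU k).2 x
      have h2 := abs_sub (Real.exp (-Us (H k) k S x)) (wS h S x)
      rw [Real.abs_exp] at h2
      linarith
    · filter_upwards [hpt] with x hx
      have h1 := (hx.sub_const (wS h S x)).abs
      rw [sub_self, abs_zero] at h1
      exact h1
  rw [integral_zero] at hT
  obtain ⟨k, hk⟩ := (hT.eventually_lt_const hε).exists
  exact ⟨hwi, Us (H k) k S, (hU k).1, hexpi k, hk.le⟩

/-- approximation of the density -/
theorem apx {ρ : ℝ → ℝ} (h : LCD ρ) (S : Fin n × Bool → Fin n × Bool → Prop)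
    (hwi : Integrable (wS ρ S)) (ε : ℝ) (hε : 0 < ε) :
    ∃ U : Eu (Fin n) → ℝ, (∀ c : ℝ, ∃ (b : Eu (Fin n) → Eu (Fin n)) (A : ℝ),
      Pot (fun x => U x + c) b A) ∧ Integrable (fun x => Real.exp (-U x)) ∧
      ∫ x, |Real.exp (-U x) - wS ρ S x| ≤ ε := by
  classical
  obtain ⟨tr, htr⟩ : ∃ tr : ℕ → ℝ → ℝ, tr = fun (k : ℕ) s => if |s| ≤ (k : ℝ) then ρ s else 0 :=
    ⟨_, rfl⟩
  have htr0 : ∀ k s, 0 ≤ tr k s := by
    intro k s
    rw [htr]
    dsimp only
    split_ifs
    · exact h.nonneg s
    · exact le_rfl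
  have htr1 : ∀ k s, tr k s ≤ ρ s := by
    intro k s
    rw [htr]
    dsimp only
    split_ifs
    · exact le_rfl
    · exact h.nonneg s
  have htrm : ∀ k, Measurable (tr k) := by
    intro k
    rw [htr]
    exact Measurable.ite (measurableSet_le (by fun_prop) measurable_const) h.meas measurable_const
  have hev : ∀ s, ∀ᶠ k : ℕ in atTop, tr k s = ρ s := by
    intro s
    filter_upwards [eventually_ge_atTop ⌈|s|⌉₊] with k hk
    rw [htr]
    dsimp only
    rw [if_pos]
    exact (Nat.le_ceil _).trans (by exact_mod_cast hk)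
  -- the integrals of the truncations are eventually positive
  have h1 : Tendsto (fun k => ∫ s, tr k s) atTop (𝓝 (∫ s, ρ s)) := by
    refine tendsto_integral_of_dominated_convergence ρ (fun k => (htrm k).aestronglyMeasurable)
      h.integrable (fun k => Eventually.of_forall fun s => ?_) (Eventually.of_forall fun s => ?_)
    · rw [Real.norm_eq_abs, abs_of_nonneg (htr0 k s)]
      exact htr1 k s
    · exact tendsto_nhds_of_eventually_eq (hev s)
  rw [h.integral_eq] at h1
  -- the densities converge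
  have h2 : Tendsto (fun k => ∫ x, |wS (tr k) S x - wS ρ S x|) atTop
      (𝓝 (∫ _x : Eu (Fin n), (0 : ℝ))) := by
    refine tendsto_integral_of_dominated_convergence (wS ρ S) (fun k => ?_) hwi
      (fun k => Eventually.of_forall fun x => ?_) (Eventually.of_forall fun x => ?_)
    · exact (((wS_meas (htrm k) S).sub (wS_meas h.meas S)).abs).aestronglyMeasurable
    · rw [Real.norm_eq_abs, abs_abs]
      have h3 : wS (tr k) S x ≤ wS ρ S x := by
        unfold wS
        split_ifs
        · exact Finset.prod_le_prod (fun i _ => htr0 k _) fun i _ => htr1 k _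
        · exact le_rfl
      have h4 := wS_nonneg (htr0 k) S x
      rw [abs_of_nonpos (by linarith)]
      linarith
    · have h3 : ∀ᶠ k : ℕ in atTop, ∀ i, tr k (x i) = ρ (x i) :=
        eventually_all.2 fun i => hev (x i)
      refine tendsto_nhds_of_eventually_eq ?_
      filter_upwards [h3] with k hk
      have : wS (tr k) S x = wS ρ S x := by
        unfold wS
        simp only [hk]
      rw [this, sub_self, abs_zero]
  rw [integral_zero] at h2
  obtain ⟨k, hk1, hk2, hk3⟩ := ((h1.eventually_const_lt zero_lt_one).and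
    ((h2.eventually_lt_const (half_pos hε)).and (eventually_gt_atTop 0))).exists
  have hLC : LC1 (tr k) := by
    rw [htr]
    exact trunc h k
  obtain ⟨hi, U, hU, hUi, hUw⟩ := apx_trunc (n := n) hLC (r := (k : ℝ)) (by exact_mod_cast hk3)
    (fun s hs => by
      rw [htr]
      dsimp only
      rw [if_neg (not_le.2 hs)]) hk1 S (ε / 2) (half_pos hε)
  refine ⟨U, hU, hUi, ?_⟩
  have h5 : ∫ x, |Real.exp (-U x) - wS ρ S x| ≤
      ∫ x, (|Real.exp (-U x) - wS (tr k) S x| + |wS (tr k) S x - wS ρ S x|) := by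
    refine integral_mono (hUi.sub hwi).abs ((hUi.sub hi).abs.add (hi.sub hwi).abs) fun x => ?_
    exact abs_sub_le _ _ _
  have h6 : ∫ x, (|Real.exp (-U x) - wS (tr k) S x| + |wS (tr k) S x - wS ρ S x|) =
      (∫ x, |Real.exp (-U x) - wS (tr k) S x|) + ∫ x, |wS (tr k) S x - wS ρ S x| :=
    integral_add (hUi.sub hi).abs (hi.sub hwi).abs
  rw [h6] at h5
  linarith

/-- SB-APX -/
theorem t_APX : S_APX := fun _ _ S h _ hwi ε hε => apx h S hwi ε hε

end Pool.Agent.U574.SB
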